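import Pool.Agent.V11288.LZ.Par

/-!
# Nonvanishing of the central value in the global Gan–Gross–Prasad conjecture from Satake parameters

Let `π_V`, `π_W` be as in the problem, tempered, `S` a finite set of places of `F` containing the infinite and
the ramified ones, and `c_{v,1}, …, c_{v,N}` for `v ∉ S` the eigenvalues of `R(t_v)`, `t_v` the Satake parameter of
`π_V ⊠ π_W` at `v` and `R` the representation of the `L`-group in the problem.  They have absolute value `1`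
(temperedness), and as `R` is symplectic, the family is closed under inversion, so that its power sums are real.
Let `L(s) = L^S(s, π_V ⊠ π_W)`; it is meromorphic at the points of the real interval `[1/2, 1]` by the assumption
of the problem.  Condition (i) of Q1 contains `L(1/2) ≠ 0`.  For real `γ ≥ 0` and `X > 1` let, with
`u = k log q_v / log X`,

`W_γ(X) = ∑_{v ∉ S} ∑_{k ≥ 1} (∑_j c_{v,j}^k) / (k q_v^{k/2}) · e^{iγu} / Γ(1 + u)`,

and `V_γ(X)` the same sum with `cos(γu)` instead of `e^{iγu}`.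

1. For `γ > π/2`: `W_γ(X) = log |L^*(1/2)| - iπz - r (log log X - Λ_γ) + O(1/log X)`, where `r` is the order and
   `L^*(1/2)` the leading coefficient of `L` at `1/2`, `z` the number of zeros minus the number of poles of `L` on
   the real half line `(1/2, ∞)` and `Λ_γ = ∫_0^∞ (e^{-t} - e^{iγt}/Γ(1+t)) dt/t`.

2. For `γ > π/2`: `L(1/2) ≠ 0`, that is `ord_{s=1/2} L = 0`, if and only if `V_γ(X)` is bounded for `X → ∞`, and
   `L` vanishes at `1/2` if and only if `V_γ(X) → -∞`.  More precisely `ord_{s=1/2} L = r` if and only if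
   `V_γ(X) = -r log log X + O(1)`.

3. For `0 ≤ γ < π/2`: `V_γ(X)` is bounded for `X → ∞` if and only if `L(1/2) ≠ 0, ∞` and `L` has neither zeros nor
   poles on the real half line `(1/2, ∞)`.

So in Q1 the condition `L(1/2) ≠ 0` can be replaced by the boundedness of the explicit sums `V_γ(X)`, `γ > π/2`,
over the Satake parameters.

Proof.  `Pool.Agent.V11288.LZ`, built on `Pool.Agent.V11290.UL`.
-/

set_option autoImplicit false

namespace Pool.Agent.Results.MP_41920c_nt.NonvanishingBySatake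

open Filter Topology Set NumberField IsDedekindDomain

variable {F : Type} [Field F] [NumberField F] {S : Set (HeightOneSpectrum (𝓞 F))} {N : ℕ}

/-- `q_v`. -/
noncomputable def nrm (v : HeightOneSpectrum (𝓞 F)) : ℕ := Ideal.absNorm v.asIdeal

/-- The numbers `c_{v,j}` have absolute value `1` and real power sums. -/
structure IsTempered (c : {v : HeightOneSpectrum (𝓞 F) // v ∉ S} → Fin N → ℂ) : Prop where
  norm : ∀ v j, ‖c v j‖ = 1
  real : ∀ v (k : ℕ), (∑ j, c v j ^ k).im = 0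

/-- `L = L^S(s, π_V ⊠ π_W)`: the Euler product for `Re s > 1`, meromorphic at the points of `[1/2, 1]`. -/
structure IsLFunction (c : {v : HeightOneSpectrum (𝓞 F) // v ∉ S} → Fin N → ℂ) (L : ℂ → ℂ) : Prop where
  mero : ∀ x ∈ Icc (1 / 2 : ℝ) 1, MeromorphicAt L (x : ℂ)
  prod : ∀ s : ℂ, 1 < s.re → L s = ∏' v, ∏ j, (1 - c v j * (nrm v.1 : ℂ) ^ (-s))⁻¹

/-- The term of `W_γ(X)` at `(v, k)`. -/
noncomputable def term (c : {v : HeightOneSpectrum (𝓞 F) // v ∉ S} → Fin N → ℂ) (γ X : ℝ)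
    (v : {v : HeightOneSpectrum (𝓞 F) // v ∉ S}) (k : ℕ) : ℂ :=
  (∑ j, c v j ^ k) / (k * ((nrm v.1 : ℝ) ^ (1 / 2 : ℝ) : ℝ) ^ k) *
    (Complex.exp ((γ * (k * Real.log (nrm v.1) / Real.log X) : ℝ) * Complex.I) /
      (Real.Gamma (1 + k * Real.log (nrm v.1) / Real.log X) : ℂ))

/-- `W_γ(X)`, the sum over `v ∉ S` and `k ≥ 1` (here `k = x.2 + 1`). -/
noncomputable def W (c : {v : HeightOneSpectrum (𝓞 F) // v ∉ S} → Fin N → ℂ) (γ X : ℝ) : ℂ :=
  ∑' x : {v : HeightOneSpectrum (𝓞 F) // v ∉ S} × ℕ, term c γ X x.1 (x.2 + 1)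

/-- `V_γ(X)`, the sum of the real parts of the terms. -/
noncomputable def V (c : {v : HeightOneSpectrum (𝓞 F) // v ∉ S} → Fin N → ℂ) (γ X : ℝ) : ℝ :=
  ∑' x : {v : HeightOneSpectrum (𝓞 F) // v ∉ S} × ℕ, (term c γ X x.1 (x.2 + 1)).re

/-- `Λ_γ = ∫_0^∞ (e^{-t} - e^{iγt} / Γ(1 + t)) dt / t`. -/
noncomputable def Lam (γ : ℝ) : ℂ := ∫ t in Ioi (0 : ℝ),
  (Complex.exp (-(t : ℂ)) - Complex.exp ((γ * t : ℝ) * Complex.I) * ((Real.Gamma (1 + t))⁻¹ : ℝ)) / t

/-- The order of `L` at the real point `x` is `r`. -/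
def OrderAt (L : ℂ → ℂ) (x : ℝ) (r : ℤ) : Prop := meromorphicOrderAt L (x : ℂ) = r

/-- The number of the zeros minus the number of the poles of `L` on the real half line `(1/2, ∞)`. -/
noncomputable def excess (L : ℂ → ℂ) : ℤ :=
  ∑ᶠ x ∈ Ioi (1 / 2 : ℝ), (meromorphicOrderAt L (x : ℂ)).untop₀

/-- `V_γ(X) = -r log log X + O(1)` for `X → ∞`. -/
def BoundedLaw (c : {v : HeightOneSpectrum (𝓞 F) // v ∉ S} → Fin N → ℂ) (γ : ℝ) (r : ℤ) : Prop :=
  ∃ C X₀ : ℝ, ∀ X ≥ X₀, |V c γ X + r * Real.log (Real.log X)| ≤ C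

open Pool.Agent.V11288.LZ

/-- **Nonvanishing at the centre from Satake parameters.** -/
theorem result (c : {v : HeightOneSpectrum (𝓞 F) // v ∉ S} → Fin N → ℂ) (hc : IsTempered c)
    (L : ℂ → ℂ) (hL : IsLFunction c L) :
    (∀ γ : ℝ, Real.pi / 2 < γ → ∃ (r : ℤ) (l : ℝ), l ≠ 0 ∧ OrderAt L (1 / 2) r ∧
      Tendsto (fun s : ℂ => L s / (s - 1 / 2) ^ r) (𝓝[≠] (1 / 2)) (𝓝 l) ∧
      (fun X : ℝ => W c γ X - (Real.log |l| - Complex.I * Real.pi * excess L -
        r * (Real.log (Real.log X) - Lam γ))) =O[atTop] (fun X : ℝ => 1 / Real.log X)) ∧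
    (∀ (γ : ℝ) (r : ℤ), Real.pi / 2 < γ → (OrderAt L (1 / 2) r ↔ BoundedLaw c γ r)) ∧
    (∀ γ : ℝ, Real.pi / 2 < γ → ((∃ r : ℤ, 0 < r ∧ OrderAt L (1 / 2) r) ↔ Tendsto (V c γ) atTop atBot)) ∧
    ∀ (γ : ℝ), 0 ≤ γ → γ < Real.pi / 2 →
      (BoundedLaw c γ 0 ↔ ∀ x : ℝ, 1 / 2 ≤ x → OrderAt L x 0) := by
  have hα : ∀ (v : {v | v ∉ S}) (j : Fin N), ‖c v j‖ ≤ (Ideal.absNorm v.1.asIdeal : ℝ) ^ (0 : ℝ) :=
    fun v j => by rw [Real.rpow_zero, hc.norm]
  have hm : ∀ x ∈ Icc (1 / 2 : ℝ) (1 + 0), MeromorphicAt L (x : ℂ) := fun x hx =>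
    hL.mero x (by simpa using hx)
  have hp : ∀ s : ℂ, (1 : ℝ) + 0 < s.re → L s = ∏' v : {v | v ∉ S}, ∏ j,
      (1 - c v j * ((Ideal.absNorm v.1.asIdeal : ℕ) : ℂ) ^ (-s))⁻¹ := fun s hs =>
    hL.prod s (by linarith)
  have hreal : ∀ (v : {v | v ∉ S}) (k : ℕ), ((jmat (S := {v | v ∉ S}) c v) ^ k).trace.im = 0 := by
    intro v k
    rw [jtr]
    exact hc.real v k
  have hterm : ∀ (γ X : ℝ) (x : {v | v ∉ S} × ℕ),
      jterm (S := {v | v ∉ S}) c (1 / 2) γ X x.1 (x.2 + 1) = term c γ X x.1 (x.2 + 1) := by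
    intro γ X x
    rfl
  have hW : ∀ γ X : ℝ, jW (S := {v | v ∉ S}) c (1 / 2) γ X = W c γ X := fun γ X =>
    tsum_congr fun x => hterm γ X x
  have hV : ∀ γ : ℝ, vot (fun v : {v | v ∉ S} => (Ideal.absNorm v.1.asIdeal : ℝ))
      (jmat (S := {v | v ∉ S}) c) (1 / 2) γ = V c γ := by
    intro γ
    funext X
    unfold vot V
    refine tsum_congr fun x => ?_
    rw [rtm_eq hreal, jterm_eq, hterm]
  obtain ⟨h1, h2, h3, -⟩ := (jeul hα).real hreal (1 / 2) hm (fun s hs => by rw [jprod, hp s hs])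
  have hhalf : ((1 / 2 : ℝ) : ℂ) = 1 / 2 := by push_cast; rfl
  have hlaw : ∀ (γ : ℝ) (r : ℤ), Real.pi / 2 < γ → (OrderAt L (1 / 2) r ↔ BoundedLaw c γ r) := by
    intro γ r hγ
    have h5 := h2 γ r hγ
    rw [hV] at h5
    exact h5.symm
  have hex : ∃ r : ℤ, OrderAt L (1 / 2) r := by
    obtain ⟨r, l, -, h6, -⟩ := h1 (Real.pi / 2 + 1) (by linarith)
    exact ⟨r, h6⟩
  refine ⟨fun γ hγ => ?_, hlaw, fun γ hγ => ?_, fun γ hγ hγ2 => ?_⟩
  · obtain ⟨r, l, h5, h6, h7, h8⟩ := h1 γ hγ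
    refine ⟨r, l, h5, h6, by rw [hhalf] at h7; exact h7, ?_⟩
    refine h8.congr_left fun X => ?_
    rw [jW_eq, hW]
    show _ = W c γ X - (Real.log |l| - Complex.I * Real.pi * excessR L (1 / 2) -
        r * (Real.log (Real.log X) - Pool.Agent.W187.UR.Lam γ))
    ring
  · have hll : Tendsto (fun X : ℝ => Real.log (Real.log X)) atTop atTop :=
      Real.tendsto_log_atTop.comp Real.tendsto_log_atTop
    constructor
    · rintro ⟨r, hr, ho⟩
      obtain ⟨C, X₀, hC⟩ := (hlaw γ r hγ).1 ho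
      have hr' : (0 : ℝ) < r := by exact_mod_cast hr
      have h5 : Tendsto (fun X : ℝ => C + -(r * Real.log (Real.log X))) atTop atBot :=
        tendsto_const_nhds.add_atBot (tendsto_neg_atTop_atBot.comp (hll.const_mul_atTop hr'))
      refine tendsto_atBot_mono' _ ?_ h5
      filter_upwards [eventually_ge_atTop X₀] with X hX
      have := (abs_le.1 (hC X hX)).2
      linarith
    · intro h
      obtain ⟨r, ho⟩ := hex
      refine ⟨r, ?_, ho⟩
      by_contra hr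
      rw [not_lt] at hr
      have hr' : (r : ℝ) ≤ 0 := by exact_mod_cast hr
      obtain ⟨C, X₀, hC⟩ := (hlaw γ r hγ).1 ho
      have h5 := (h.eventually (eventually_lt_atBot (-C))).and
        ((eventually_ge_atTop X₀).and (hll.eventually (eventually_ge_atTop 0)))
      obtain ⟨X, hX1, hX2, hX3⟩ := h5.exists
      have h6 := (abs_le.1 (hC X hX2)).1
      nlinarith
  · have h5 := h3 γ 0 hγ hγ2
    rw [hV] at h5
    refine h5.trans ⟨fun h x hx => ?_, fun h => ⟨h _ le_rfl, fun x hx => h x hx.le⟩⟩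
    rcases hx.eq_or_lt with rfl | hx'
    · exact h.1
    · exact h.2 x hx'

end Pool.Agent.Results.MP_41920c_nt.NonvanishingBySatake
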